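import Pool.Agent.LibBratteli.Perron

namespace Pool.Agent.Results.MP_17dcfb_an.FiniteMeasureExists

open MeasureTheory Set Pool.Agent.LibBratteli

/-! ### The matrices -/

/-- base matrix -/
def F0 (v w : ℤ) : ℕ :=
  if v = w + 1 then 1 else if v = w ∧ w < 0 then w.natAbs else
    if 0 ≤ w ∧ v = -1 - w then 1 else 0

/-- the matrix of the example -/
def FF (v w : ℤ) : ℕ := 2 * F0 v w

lemma F0_up (w : ℤ) : F0 (w + 1) w = 1 := by simp [F0]

lemma F0_loop (w : ℤ) (hw : w < 0) : F0 w w = w.natAbs := by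
  simp [F0, hw]

lemma F0_jump (w : ℤ) (hw : 0 ≤ w) : F0 (-1 - w) w = 1 := by
  unfold F0
  rw [if_neg (by omega), if_neg (by omega), if_pos ⟨hw, rfl⟩]

lemma F0_in {v w : ℤ} (hv : 0 ≤ v) (h : F0 v w ≠ 0) : w = v - 1 := by
  unfold F0 at h
  split_ifs at h with h1 h2 h3
  · omega
  · omega
  · omega
  · exact absurd rfl h

lemma F0_row (v w : ℤ) (h : F0 v w ≠ 0) : w = v - 1 ∨ w = v ∨ w = -1 - v := by
  unfold F0 at h
  split_ifs at h with h1 h2 h3
  · omega
  · omega
  · omega
  · exact absurd rfl h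

lemma F0_row_finite (v : ℤ) : {w | F0 v w ≠ 0}.Finite := by
  apply Set.Finite.subset (s := {v - 1, v, -1 - v}) (Set.toFinite _)
  intro w hw
  have := F0_row v w hw
  simp only [Set.mem_insert_iff, Set.mem_singleton_iff]
  exact this

lemma F0_col_finite (w : ℤ) : {v | F0 v w ≠ 0}.Finite := by
  apply Set.Finite.subset (s := {w + 1, w, -1 - w}) (Set.toFinite _)
  intro v hv
  have := F0_row v w hv
  simp only [Set.mem_insert_iff, Set.mem_singleton_iff]
  omega

lemma FF_incidence : IsIncidence FF where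
  row_finite v := (F0_row_finite v).subset (fun w hw => by
    intro h; exact hw (by simp [FF, h]))
  col_finite w := (F0_col_finite w).subset (fun v hv => by
    intro h; exact hv (by simp [FF, h]))
  emits w := ⟨w + 1, by simp [FF, F0_up]⟩
  receives v := ⟨v - 1, by
    have := F0_up (v - 1)
    rw [sub_add_cancel] at this
    simp [FF, this]⟩

lemma FF_row : ∀ v, {w | FF v w ≠ 0}.Finite := FF_incidence.row_finite

lemma pw_up (n : ℕ) (j : ℤ) : 0 < pw FF n (j + n) j := by
  induction n with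
  | zero => simp [pw]
  | succ n ih =>
    have h := pw_mul_le FF_row 1 n (j + (n + 1 : ℕ)) (j + n) j
    rw [show pw FF (n + 1) (j + ((n + 1 : ℕ) : ℤ)) j = pw FF (1 + n) (j + ((n + 1 : ℕ) : ℤ)) j by
      rw [add_comm n 1]]
    refine lt_of_lt_of_le ?_ h
    rw [pw_one FF_row]
    apply Nat.mul_pos _ ih
    have := F0_up (j + n)
    rw [show j + ((n + 1 : ℕ) : ℤ) = j + n + 1 by push_cast; ring]
    simp [FF, this]

/-- There is a closed walk structure through a large negative vertex. -/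
lemma walk (i j : ℤ) : ∃ (k : ℤ) (a b : ℕ), k < 0 ∧ 0 < b ∧ 0 < pw FF a i k ∧ 0 < pw FF b k j := by
  set K : ℤ := max (max j 0) (-1 - i) with hK
  have h1 : j ≤ K := le_trans (le_max_left _ _) (le_max_left _ _)
  have h2 : 0 ≤ K := le_trans (le_max_right _ _) (le_max_left _ _)
  have h3 : -1 - i ≤ K := le_max_right _ _
  refine ⟨-1 - K, (i - (-1 - K)).toNat, 1 + (K - j).toNat, by omega, by omega, ?_, ?_⟩
  · have := pw_up (i - (-1 - K)).toNat (-1 - K)
    rwa [show -1 - K + ((i - (-1 - K)).toNat : ℤ) = i by omega] at this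
  · refine lt_of_lt_of_le ?_ (pw_mul_le FF_row 1 (K - j).toNat (-1 - K) K j)
    rw [pw_one FF_row]
    apply Nat.mul_pos
    · simp [FF, F0_jump K h2]
    · have := pw_up (K - j).toNat j
      rwa [show j + ((K - j).toNat : ℤ) = K by omega] at this

lemma FF_irreducible : MatIrreducible FF := by
  intro i j
  obtain ⟨k, a, b, _, hb, h1, h2⟩ := walk i j
  exact ⟨a + b, by omega, lt_of_lt_of_le (Nat.mul_pos h1 h2) (pw_mul_le FF_row a b i k j)⟩

lemma FF_aperiodic : MatAperiodic FF := by
  intro i d hd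
  obtain ⟨k, a, b, hk, hb, h1, h2⟩ := walk i i
  have e1 := hd (a + b) (lt_of_lt_of_le (Nat.mul_pos h1 h2) (pw_mul_le FF_row a b i k i))
  have e2 : 0 < pw FF (a + 1) i k := by
    refine lt_of_lt_of_le (Nat.mul_pos h1 ?_) (pw_mul_le FF_row a 1 i k k)
    rw [pw_one FF_row, FF, F0_loop k hk]
    omega
  have e3 := hd (a + 1 + b) (lt_of_lt_of_le (Nat.mul_pos e2 h2) (pw_mul_le FF_row (a + 1) b i k i))
  have : d ∣ 1 := by
    have := (Nat.dvd_add_right e1).1 (show d ∣ (a + b) + 1 by
      rw [show a + b + 1 = a + 1 + b by ring]; exact e3)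
    exact this
  exact Nat.dvd_one.1 this

lemma FF_perron : PerronInfinite FF := by
  apply perronInfinite_of FF_row FF_irreducible
  intro K
  refine ⟨-1 - K, ?_⟩
  rw [FF, F0_loop _ (by omega)]
  omega

/-! ### Finiteness of the number of finite paths with given end -/

lemma edges_into_finite {F : ℤ → ℤ → ℕ} (hrow : ∀ v, {w | F v w ≠ 0}.Finite) (v : ℤ) :
    {f : Edge F | f.rng = v}.Finite := by
  have : Finite {w | F v w ≠ 0} := hrow v
  have hfin : Finite (Σ w : {w | F v w ≠ 0}, Fin (F v w)) := inferInstance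
  apply (Set.finite_range (fun s : (Σ w : {w | F v w ≠ 0}, Fin (F v w)) =>
    (⟨s.1.1, v, s.2⟩ : Edge F))).subset
  rintro ⟨s, r, i⟩ hf
  simp only [Set.mem_ofPred_eq] at hf
  subst hf
  exact ⟨⟨⟨s, fun h => by rw [h] at i; exact i.elim0⟩, i⟩, rfl⟩

/-- forgetting the last edge -/
def init {F : ℤ → ℤ → ℕ} {n : ℕ} (e : FinPath F (n + 1)) : FinPath F n where
  edge := fun i => e.edge i.castSucc
  compat := fun i => e.compat i.castSucc

lemma paths_finite {F : ℤ → ℤ → ℕ} (hrow : ∀ v, {w | F v w ≠ 0}.Finite) (n : ℕ) (v : ℤ) :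
    {e : FinPath F n | e.last = v}.Finite := by
  induction n generalizing v with
  | zero =>
    apply Set.Finite.of_finite_image (f := fun e : FinPath F 0 => e.edge 0)
    · apply (edges_into_finite hrow v).subset
      rintro _ ⟨e, he, rfl⟩
      exact he
    · intro e _ e' _ h
      cases e with
      | mk a b =>
        cases e' with
        | mk a' b' =>
          congr
          funext i
          rw [Fin.eq_zero i]
          exact h
  | succ n ih =>
    apply Set.Finite.of_finite_image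
      (f := fun e : FinPath F (n + 1) => (init e, e.edge (Fin.last (n + 1))))
    · have : (⋃ f ∈ {f : Edge F | f.rng = v},
          (fun e' : FinPath F n => (e', f)) '' {e' : FinPath F n | e'.last = f.src}).Finite :=
        (edges_into_finite hrow v).biUnion (fun f _ => (ih f.src).image _)
      apply this.subset
      rintro _ ⟨e, he, rfl⟩
      rw [mem_iUnion₂]
      exact ⟨e.edge (Fin.last (n + 1)), he, init e, e.compat (Fin.last n), rfl⟩
    · intro e _ e' _ h
      simp only [Prod.mk.injEq] at h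
      cases e with
      | mk a b =>
        cases e' with
        | mk a' b' =>
          congr
          funext i
          refine Fin.lastCases ?_ ?_ i
          · exact h.2
          · intro j
            have := congrArg (fun e => FinPath.edge e j) h.1
            exact this

/-- truncation of an infinite path -/
def trunc {F : ℤ → ℤ → ℕ} (n : ℕ) (x : PathSpace F) : FinPath F n where
  edge := fun i => x.1 i
  compat := fun i => x.2 i

/-! ### Eventually-on-the-ray paths -/

/-- The edge `w → w + 1`. -/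
def up (w : ℤ) : Edge F0 := ⟨w, w + 1, ⟨0, by rw [F0_up]; exact one_pos⟩⟩

lemma eq_up {f : Edge F0} {w : ℤ} (h1 : f.src = w) (h2 : f.rng = w + 1) : f = up w := by
  apply Edge.ext' h1 h2
  have h4 : (f.idx : ℕ) < F0 f.rng f.src := f.idx.2
  have h3 : F0 f.rng f.src = 1 := by rw [h1, h2, F0_up]
  have h5 : (f.idx : ℕ) = 0 := by omega
  rw [h5]; rfl

/-- Paths that are eventually on the ray with delay `m`. -/
def A (m : ℤ) : Set (PathSpace F0) := {x | ∃ N : ℕ, ∀ n ≥ N, (x.1 n).src = (n : ℤ) - m}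

lemma A_src {m : ℤ} {x : PathSpace F0} (hx : x ∈ A m) (n : ℕ) (hn : m ≤ n) :
    (x.1 n).src = (n : ℤ) - m := by
  obtain ⟨N, hN⟩ := hx
  induction N with
  | zero => exact hN n (Nat.zero_le n)
  | succ N ih =>
    by_cases hm : m ≤ N
    · apply ih
      intro k hk
      rcases Nat.lt_or_ge N k with h | h
      · exact hN k h
      · have hkN : k = N := le_antisymm h hk
        subst hkN
        have h1 := hN (k + 1) le_rfl
        have h2 := x.2 k
        rw [h1] at h2
        have h3 : F0 (x.1 k).rng (x.1 k).src ≠ 0 := by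
          intro h0
          have := (x.1 k).idx.2
          omega
        have h4 := F0_in (by rw [h2]; push_cast; omega) h3
        rw [h4, h2]
        push_cast
        ring
    · exact hN n (by omega)

lemma A_edge {m : ℤ} {x : PathSpace F0} (hx : x ∈ A m) (n : ℕ) (hn : m ≤ n) :
    x.1 n = up ((n : ℤ) - m) := by
  apply eq_up (A_src hx n hn)
  rw [x.2 n, A_src hx (n + 1) (by push_cast; omega)]
  push_cast; ring

lemma A_finite (m : ℤ) : (A m).Finite := by
  set M := m.toNat with hM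
  have hMm : m ≤ M := Int.self_le_toNat m
  apply Set.Finite.of_finite_image (f := trunc M)
  · apply (paths_finite F0_row_finite M ((M : ℤ) - m + 1)).subset
    rintro _ ⟨x, hx, rfl⟩
    change (x.1 (Fin.last M)).rng = _
    rw [Fin.val_last, A_edge hx M hMm]
    rfl
  · intro x hx y hy h
    apply Subtype.ext
    funext n
    rcases Nat.lt_or_ge n M with hn | hn
    · have := congrArg (fun e => FinPath.edge e ⟨n, by omega⟩) h
      exact this
    · rw [A_edge hx n (by omega), A_edge hy n (by omega)]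

/-! ### Splicing: exchanging the beginning of a path -/

/-- Replace the first `n + 1` edges of a sequence by those of `e'`. -/
def spliceFun {n : ℕ} (e' : FinPath F0 n) (x : ℕ → Edge F0) : ℕ → Edge F0 :=
  fun i => if hi : i < n + 1 then e'.edge ⟨i, hi⟩ else x i

lemma spliceFun_lt {n : ℕ} (e' : FinPath F0 n) (x : ℕ → Edge F0) (i : ℕ) (hi : i < n + 1) :
    spliceFun e' x i = e'.edge ⟨i, hi⟩ := dif_pos hi

lemma spliceFun_ge {n : ℕ} (e' : FinPath F0 n) (x : ℕ → Edge F0) (i : ℕ) (hi : ¬ i < n + 1) :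
    spliceFun e' x i = x i := dif_neg hi

lemma spliceFun_compat {n : ℕ} (e' : FinPath F0 n) (x : ℕ → Edge F0)
    (h : e'.last = (x (n + 1)).src) (hx : ∀ i, ¬ i < n + 1 → (x i).rng = (x (i + 1)).src) (i : ℕ) :
    (spliceFun e' x i).rng = (spliceFun e' x (i + 1)).src := by
  by_cases h1 : i + 1 < n + 1
  · rw [spliceFun_lt e' x i (by omega), spliceFun_lt e' x (i + 1) h1]
    exact e'.compat ⟨i, by omega⟩
  · by_cases h2 : i < n + 1
    · rw [spliceFun_lt e' x i h2, spliceFun_ge e' x (i + 1) h1]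
      have : i = n := by omega
      subst this
      exact h
    · rw [spliceFun_ge e' x i h2, spliceFun_ge e' x (i + 1) h1]
      exact hx i h2

/-- Replace the first `n + 1` edges of `x` by those of `e'`. -/
def splice {n : ℕ} (e' : FinPath F0 n) (x : PathSpace F0) (h : e'.last = (x.1 (n + 1)).src) :
    PathSpace F0 :=
  ⟨spliceFun e' x.1, spliceFun_compat e' x.1 h (fun i _ => x.2 i)⟩

lemma splice_lt {n : ℕ} (e' : FinPath F0 n) (x : PathSpace F0) (h) (i : ℕ) (hi : i < n + 1) :
    (splice e' x h).1 i = e'.edge ⟨i, hi⟩ := spliceFun_lt e' x.1 i hi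

lemma splice_ge {n : ℕ} (e' : FinPath F0 n) (x : PathSpace F0) (h) (i : ℕ) (hi : ¬ i < n + 1) :
    (splice e' x h).1 i = x.1 i := spliceFun_ge e' x.1 i hi

lemma last_eq_src {n : ℕ} {e : FinPath F0 n} {x : PathSpace F0} (hx : x ∈ cyl e) :
    e.last = (x.1 (n + 1)).src := by
  have h2 := x.2 n
  have h3 := hx (Fin.last n)
  simp only [Fin.val_last] at h3
  rw [h3] at h2
  exact h2

lemma splice_mem_cyl {n : ℕ} (e' : FinPath F0 n) (x : PathSpace F0) (h) :
    splice e' x h ∈ cyl e' := by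
  intro i
  rw [splice_lt _ _ _ _ i.2]

lemma splice_mem_A {n : ℕ} (e' : FinPath F0 n) (x : PathSpace F0) (h) {m : ℤ} (hx : x ∈ A m) :
    splice e' x h ∈ A m := by
  obtain ⟨N, hN⟩ := hx
  refine ⟨max N (n + 1), fun k hk => ?_⟩
  have h1 : N ≤ k := le_trans (le_max_left _ _) hk
  have h2 : n + 1 ≤ k := le_trans (le_max_right _ _) hk
  rw [splice_ge _ _ _ _ (by omega)]
  exact hN k h1

lemma splice_splice {n : ℕ} (e e' : FinPath F0 n) (x : PathSpace F0) (h) (h')
    (hx : x ∈ cyl e) : splice e (splice e' x h) h' = x := by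
  apply Subtype.ext
  funext i
  by_cases hi : i < n + 1
  · rw [splice_lt _ _ _ _ hi]
    exact (hx ⟨i, hi⟩).symm
  · rw [splice_ge _ _ _ _ hi, splice_ge _ _ _ _ hi]

/-- The index set of the atoms. -/
abbrev Idx := {s : ℤ × PathSpace F0 // s.2 ∈ A s.1}

/-- swap the beginning -/
def swap {n : ℕ} (e e' : FinPath F0 n) (h : e.last = e'.last)
    (s : {s : Idx // s.1.2 ∈ cyl e}) : {s : Idx // s.1.2 ∈ cyl e'} :=
  ⟨⟨(s.1.1.1, splice e' s.1.1.2 (h.symm.trans (last_eq_src s.2))),
    splice_mem_A e' s.1.1.2 (h.symm.trans (last_eq_src s.2)) s.1.2⟩,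
    splice_mem_cyl e' s.1.1.2 (h.symm.trans (last_eq_src s.2))⟩

lemma swap_swap {n : ℕ} (e e' : FinPath F0 n) (h : e.last = e'.last)
    (s : {s : Idx // s.1.2 ∈ cyl e}) : swap e' e h.symm (swap e e' h s) = s := by
  apply Subtype.ext
  apply Subtype.ext
  apply Prod.ext
  · rfl
  · exact splice_splice e e' s.1.1.2 (h.symm.trans (last_eq_src s.2))
      (h.trans (last_eq_src (swap e e' h s).2)) s.2

/-- The bijection between atoms in two cylinders with the same end. -/
def swapEquiv {n : ℕ} (e e' : FinPath F0 n) (h : e.last = e'.last) :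
    {s : Idx // s.1.2 ∈ cyl e} ≃ {s : Idx // s.1.2 ∈ cyl e'} where
  toFun := swap e e' h
  invFun := swap e' e h.symm
  left_inv := swap_swap e e' h
  right_inv := swap_swap e' e h.symm

/-! ### The atomic measure for the base matrix -/

/-- weighted sum of Dirac masses -/
noncomputable def mu0 (δ : ℤ → NNReal) : Measure (PathSpace F0) :=
  Measure.sum (fun s : Idx => (δ s.1.1 : ENNReal) • Measure.dirac s.1.2)

lemma mu0_apply (δ : ℤ → NNReal) {S : Set (PathSpace F0)} (hS : MeasurableSet S) :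
    mu0 δ S = ∑' s : {s : Idx // s.1.2 ∈ S}, (δ s.1.1.1 : ENNReal) := by
  classical
  rw [mu0, Measure.sum_apply _ hS]
  have h2 := tsum_subtype {s : Idx | s.1.2 ∈ S} (fun s : Idx => (δ s.1.1 : ENNReal))
  have h3 : (∑' s : {s : Idx // s.1.2 ∈ S}, (δ s.1.1.1 : ENNReal))
      = ∑' s : Idx, Set.indicator {s : Idx | s.1.2 ∈ S} (fun s : Idx => (δ s.1.1 : ENNReal)) s := h2
  rw [h3]
  congr 1
  funext s
  rw [Measure.smul_apply, Measure.dirac_apply' _ hS, smul_eq_mul]
  by_cases hs : s.1.2 ∈ S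
  · rw [Set.indicator_of_mem hs, Set.indicator_of_mem (show s ∈ {s : Idx | s.1.2 ∈ S} from hs)]
    simp
  · rw [Set.indicator_of_notMem hs,
      Set.indicator_of_notMem (show s ∉ {s : Idx | s.1.2 ∈ S} from hs)]
    simp

lemma mu0_cyl_eq (δ : ℤ → NNReal) {n : ℕ} (e e' : FinPath F0 n) (h : e.last = e'.last) :
    mu0 δ (cyl e) = mu0 δ (cyl e') := by
  rw [mu0_apply δ (measurableSet_cyl e), mu0_apply δ (measurableSet_cyl e')]
  have h1 := (swapEquiv e e' h).tsum_eq
    (fun s : {s : Idx // s.1.2 ∈ cyl e'} => (δ s.1.1.1 : ENNReal))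
  rw [← h1]
  rfl

/-- The upward ray of edges from `v` at level `n + 1`. -/
def ray (v : ℤ) (n : ℕ) : ℕ → Edge F0 := fun i => up (v + ((i : ℤ) - (n + 1)))

/-- Continue a finite path upwards forever. -/
def contUp {n : ℕ} (e : FinPath F0 n) : PathSpace F0 :=
  ⟨spliceFun e (ray e.last n), spliceFun_compat e (ray e.last n)
    (by simp [ray, up]) (fun i _ => by simp only [ray, up]; push_cast; ring)⟩

lemma contUp_mem_cyl {n : ℕ} (e : FinPath F0 n) : contUp e ∈ cyl e := by
  intro i
  exact spliceFun_lt e (ray e.last n) i i.2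

lemma contUp_mem_A {n : ℕ} (e : FinPath F0 n) : contUp e ∈ A ((n : ℤ) + 1 - e.last) := by
  refine ⟨n + 1, fun k hk => ?_⟩
  have h : ¬ k < n + 1 := by omega
  have h2 : (contUp e).1 k = up (e.last + ((k : ℤ) - (n + 1))) :=
    spliceFun_ge e (ray e.last n) k h
  rw [h2]
  simp only [up]
  ring

lemma mu0_cyl_pos (δ : ℤ → NNReal) (hδ : ∀ i, 0 < δ i) {n : ℕ} (e : FinPath F0 n) :
    0 < mu0 δ (cyl e) := by
  rw [mu0_apply δ (measurableSet_cyl e)]
  refine lt_of_lt_of_le ?_ (ENNReal.le_tsum (⟨⟨((n : ℤ) + 1 - e.last, contUp e), contUp_mem_A e⟩,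
    contUp_mem_cyl e⟩ : {s : Idx // s.1.2 ∈ cyl e}))
  exact_mod_cast hδ _

lemma exists_weights : ∃ δ : ℤ → NNReal, (∀ i, 0 < δ i) ∧ mu0 δ univ < 1 := by
  obtain ⟨δ, h1, h2⟩ := ENNReal.exists_pos_tsum_mul_lt_of_countable (ι := ℤ)
    (one_ne_zero) (fun m => ((Nat.card (A m) : ℕ) : ENNReal)) (fun m => ENNReal.natCast_ne_top _)
  refine ⟨δ, h1, ?_⟩
  refine lt_of_le_of_lt (le_of_eq ?_) h2
  rw [mu0_apply δ MeasurableSet.univ]
  have e1 : (∑' s : {s : Idx // s.1.2 ∈ (univ : Set (PathSpace F0))}, (δ s.1.1.1 : ENNReal))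
      = ∑' s : Idx, (δ s.1.1 : ENNReal) :=
    (Equiv.subtypeUnivEquiv (fun s : Idx => mem_univ s.1.2)).tsum_eq
      (fun s => (δ s.1.1 : ENNReal))
  have e2 := (Equiv.subtypeProdEquivSigmaSubtype (fun (m : ℤ) (x : PathSpace F0) => x ∈ A m)).tsum_eq
      (fun s : (Σ m : ℤ, {x : PathSpace F0 // x ∈ A m}) => (δ s.1 : ENNReal))
  have e3 : ∑' s : Idx, (δ s.1.1 : ENNReal)
      = ∑' s : (Σ m : ℤ, {x : PathSpace F0 // x ∈ A m}), (δ s.1 : ENNReal) := e2
  rw [e1, e3, ENNReal.tsum_sigma (fun m (_ : {x : PathSpace F0 // x ∈ A m}) => (δ m : ENNReal))]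
  congr 1
  funext m
  have : Finite {x : PathSpace F0 // x ∈ A m} := A_finite m
  have h3 := Fintype.ofFinite {x : PathSpace F0 // x ∈ A m}
  rw [tsum_fintype, Finset.sum_const, nsmul_eq_mul, Finset.card_univ]
  congr 2
  exact (Nat.card_eq_fintype_card (α := {x : PathSpace F0 // x ∈ A m})).symm

/-! ### Doubling all edges by fair coins -/

/-- The edges of the doubled matrix. -/
def edgeEq : Edge F0 × Fin 2 ≃ Edge FF where
  toFun p := ⟨p.1.src, p.1.rng, finProdFinEquiv (p.2, p.1.idx)⟩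
  invFun f := (⟨f.src, f.rng, (finProdFinEquiv.symm f.idx).2⟩, (finProdFinEquiv.symm f.idx).1)
  left_inv := by
    rintro ⟨⟨s, r, i⟩, b⟩
    simp
  right_inv := by
    rintro ⟨s, r, i⟩
    exact congrArg (Edge.mk s r) (Equiv.apply_symm_apply finProdFinEquiv i)

/-- Combine a base path with coin tosses. -/
def comb (p : PathSpace F0 × (ℕ → Fin 2)) : PathSpace FF :=
  ⟨fun i => edgeEq (p.1.1 i, p.2 i), fun i => p.1.2 i⟩

/-- The projection of finite paths. -/
def projPath {n : ℕ} (e : FinPath FF n) : FinPath F0 n where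
  edge := fun i => (edgeEq.symm (e.edge i)).1
  compat := fun i => e.compat i

lemma projPath_last {n : ℕ} (e : FinPath FF n) : (projPath e).last = e.last := rfl

lemma comb_preimage {n : ℕ} (e : FinPath FF n) :
    comb ⁻¹' (cyl e) = (cyl (projPath e)) ×ˢ
      (Set.pi (Finset.range (n + 1) : Set ℕ)
        (fun i => {b : Fin 2 | ∀ hi : i < n + 1, b = (edgeEq.symm (e.edge ⟨i, hi⟩)).2})) := by
  ext ⟨x, b⟩
  simp only [Set.mem_preimage, Set.mem_prod, Set.mem_pi, Finset.coe_range, Set.mem_Iio,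
    Set.mem_ofPred_eq]
  constructor
  · intro h
    refine ⟨fun i => ?_, fun i hi hi' => ?_⟩
    · have h1 : edgeEq (x.1 i, b i) = e.edge i := h i
      change x.1 i = (edgeEq.symm (e.edge i)).1
      rw [← h1, Equiv.symm_apply_apply]
    · have h1 : edgeEq (x.1 i, b i) = e.edge ⟨i, hi⟩ := h ⟨i, hi⟩
      rw [← h1, Equiv.symm_apply_apply]
  · rintro ⟨h1, h2⟩ i
    change edgeEq (x.1 i, b i) = e.edge i
    rw [← Equiv.eq_symm_apply]
    exact Prod.ext (h1 i) (h2 i i.2 i.2)

/-- fair coin -/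
noncomputable def coin : Measure (Fin 2) := (PMF.uniformOfFintype (Fin 2)).toMeasure

instance : IsProbabilityMeasure coin := by unfold coin; infer_instance

/-- fair coin tosses -/
noncomputable def coins : Measure (ℕ → Fin 2) := Measure.infinitePi (fun _ => coin)

instance : IsProbabilityMeasure coins := by unfold coins; infer_instance

lemma coin_singleton (b : Fin 2) : coin {b} = 2⁻¹ := by
  rw [coin, PMF.toMeasure_apply_singleton _ _ (measurableSet_singleton b)]
  simp

lemma coins_pi {n : ℕ} (e : FinPath FF n) :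
    coins (Set.pi (Finset.range (n + 1) : Set ℕ)
        (fun i => {b : Fin 2 | ∀ hi : i < n + 1, b = (edgeEq.symm (e.edge ⟨i, hi⟩)).2}))
      = (2⁻¹ : ENNReal) ^ (n + 1) := by
  rw [coins, Measure.infinitePi_pi _ (fun i _ => MeasurableSet.of_discrete)]
  rw [Finset.prod_congr rfl (g := fun _ => (2⁻¹ : ENNReal))]
  · rw [Finset.prod_const, Finset.card_range]
  · intro i hi
    have hi' : i < n + 1 := Finset.mem_range.1 hi
    rw [← coin_singleton (edgeEq.symm (e.edge ⟨i, hi'⟩)).2]
    congr 1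
    ext b
    simp [hi']

lemma measurable_comb : Measurable comb := by
  apply measurable_generateFrom
  rintro _ ⟨n, e, rfl⟩
  rw [comb_preimage]
  apply MeasurableSet.prod (measurableSet_cyl _)
  apply MeasurableSet.pi (Finset.countable_toSet _)
  intro i _
  exact MeasurableSet.of_discrete

lemma trunc_mem_cyl {F : ℤ → ℤ → ℕ} (n : ℕ) (x : PathSpace F) : x ∈ cyl (trunc n x) :=
  fun _ => rfl

/-- **Question 1, positive answer in strong form**: there is a stationary generalized Bratteli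
diagram whose incidence matrix is aperiodic, irreducible and has infinite Perron eigenvalue, and
which carries a tail-invariant probability measure that is positive on every cylinder set and has
no atoms. -/
theorem result : ∃ F : ℤ → ℤ → ℕ, IsIncidence F ∧ MatIrreducible F ∧ MatAperiodic F ∧
    PerronInfinite F ∧ ∃ μ : Measure (PathSpace F), IsProbabilityMeasure μ ∧ TailInvariant μ ∧
      (∀ (n : ℕ) (e : FinPath F n), 0 < μ (cyl e)) ∧ (∀ x : PathSpace F, μ {x} = 0) := by
  refine ⟨FF, FF_incidence, FF_irreducible, FF_aperiodic, FF_perron, ?_⟩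
  obtain ⟨δ, hδ, hfin⟩ := exists_weights
  have hfinite : IsFiniteMeasure (mu0 δ) := ⟨hfin.trans ENNReal.one_lt_top⟩
  set c : ENNReal := mu0 δ univ with hc
  have hc0 : c ≠ 0 := by
    have e : FinPath F0 0 := FinPath.single (up 0)
    have h1 := mu0_cyl_pos δ hδ e
    exact (h1.trans_le (measure_mono (subset_univ _))).ne'
  have hctop : c ≠ ⊤ := (hfin.trans ENNReal.one_lt_top).ne
  set μ1 : Measure (PathSpace FF) := ((mu0 δ).prod coins).map comb with hμ1
  have hcyl : ∀ (n : ℕ) (e : FinPath FF n),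
      μ1 (cyl e) = mu0 δ (cyl (projPath e)) * (2⁻¹ : ENNReal) ^ (n + 1) := by
    intro n e
    rw [hμ1, Measure.map_apply measurable_comb (measurableSet_cyl e), comb_preimage,
      Measure.prod_prod, coins_pi]
  have huniv : μ1 univ = c := by
    rw [hμ1, Measure.map_apply measurable_comb MeasurableSet.univ, preimage_univ,
      ← univ_prod_univ, Measure.prod_prod, measure_univ (μ := coins), mul_one]
  have hval : ∀ (n : ℕ) (e : FinPath FF n), (c⁻¹ • μ1) (cyl e)
      = c⁻¹ * (mu0 δ (cyl (projPath e)) * (2⁻¹ : ENNReal) ^ (n + 1)) := by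
    intro n e
    rw [Measure.smul_apply, hcyl, smul_eq_mul]
  have hprob : IsProbabilityMeasure (c⁻¹ • μ1) :=
    ⟨by rw [Measure.smul_apply, huniv, smul_eq_mul, ENNReal.inv_mul_cancel hc0 hctop]⟩
  have hpos : ∀ (n : ℕ) (e : FinPath FF n), 0 < (c⁻¹ • μ1) (cyl e) := by
    intro n e
    rw [hval]
    apply ENNReal.mul_pos (ENNReal.inv_ne_zero.2 hctop)
    apply mul_ne_zero (mu0_cyl_pos δ hδ _).ne'
    apply pow_ne_zero
    exact ENNReal.inv_ne_zero.2 (by norm_num)
  refine ⟨c⁻¹ • μ1, hprob, ⟨hprob.ne_zero, ?_⟩, hpos, ?_⟩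
  · intro n e e' h
    rw [hval, hval, mu0_cyl_eq δ (projPath e) (projPath e')
      (by rw [projPath_last, projPath_last, h])]
  · intro x
    have hb : ∀ n : ℕ, (c⁻¹ • μ1) {x} ≤ (2⁻¹ : ENNReal) ^ (n + 1) := by
      intro n
      calc (c⁻¹ • μ1) {x} ≤ (c⁻¹ • μ1) (cyl (trunc n x)) :=
            measure_mono (singleton_subset_iff.2 (trunc_mem_cyl n x))
        _ = c⁻¹ * (mu0 δ (cyl (projPath (trunc n x))) * (2⁻¹ : ENNReal) ^ (n + 1)) := hval _ _
        _ ≤ c⁻¹ * (c * (2⁻¹ : ENNReal) ^ (n + 1)) := by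
            gcongr
            exact measure_mono (subset_univ _)
        _ = (2⁻¹ : ENNReal) ^ (n + 1) := by
            rw [← mul_assoc, ENNReal.inv_mul_cancel hc0 hctop, one_mul]
    have hlim : Filter.Tendsto (fun n : ℕ => (2⁻¹ : ENNReal) ^ (n + 1)) Filter.atTop (nhds 0) :=
      (ENNReal.tendsto_pow_atTop_nhds_zero_of_lt_one (by
        rw [ENNReal.inv_lt_one]; norm_num)).comp (Filter.tendsto_add_atTop_nat 1)
    exact le_antisymm (ge_of_tendsto' hlim hb) zero_le

end Pool.Agent.Results.MP_17dcfb_an.FiniteMeasureExists
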