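import Pool.Agent.LibBratteli.Loops

namespace Pool.Agent.Results.MP_17dcfb_an.TridiagonalNone

open MeasureTheory Set Finset Pool.Agent.LibBratteli

/-- The tridiagonal matrix of the question, indexed by the positive integers: `F i i = i + 1`,
`F i (i+1) = F (i+1) i = 1`, all other entries `0`. -/
def triMatrix (i j : ℕ+) : ℕ :=
  if i = j then (i : ℕ) + 1 else if (i : ℕ) = j + 1 ∨ (j : ℕ) = i + 1 then 1 else 0

lemma tri_diag (v : ℕ+) : triMatrix v v = (v : ℕ) + 1 := by simp [triMatrix]

lemma tri_pos (v : ℕ+) : 0 < triMatrix v v := by rw [tri_diag]; omega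

lemma tri_up (v w : ℕ+) (h : (w : ℕ) = v + 1) : triMatrix v w = 1 := by
  have : v ≠ w := by rintro rfl; omega
  simp [triMatrix, this, h]

lemma tri_down (v w : ℕ+) (h : (w : ℕ) = v + 1) : triMatrix w v = 1 := by
  have : w ≠ v := by rintro rfl; omega
  simp [triMatrix, this, h]

/-- shifted vertex -/
def ver (w : ℕ+) (i : ℕ) : ℕ+ := ⟨(w : ℕ) + i, by positivity⟩

lemma ver_zero (w : ℕ+) : ver w 0 = w := by
  apply PNat.coe_injective; rfl

section
variable {μ : Measure (PathSpace triMatrix)} (hμ : TailInvariant μ)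
include hμ

lemma mass_ge (n : ℕ) (v w : ℕ+) :
    (triMatrix v w : ENNReal) * mass tri_pos μ (n + 1) v ≤ mass tri_pos μ n w := by
  rw [mass_step tri_pos hμ n]
  exact le_op _ _ _ _

lemma mass_up (w : ℕ+) (i n : ℕ) :
    mass tri_pos μ (n + i) (ver w i) ≤ mass tri_pos μ n w := by
  induction i with
  | zero => rw [ver_zero]; simp
  | succ i ih =>
    refine le_trans ?_ ih
    have := mass_ge hμ (n + i) (ver w (i + 1)) (ver w i)
    rw [tri_down _ _ (by simp [ver]; ring), Nat.cast_one, one_mul] at this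
    exact this

lemma mass_down (w : ℕ+) (i n : ℕ) :
    mass tri_pos μ (n + i) w ≤ mass tri_pos μ n (ver w i) := by
  induction i generalizing n with
  | zero => rw [ver_zero]; simp
  | succ i ih =>
    have h1 := ih (n + 1)
    have h2 := mass_ge hμ n (ver w i) (ver w (i + 1))
    rw [tri_up _ _ (by simp [ver]; ring)] at h2
    rw [show n + (i + 1) = n + 1 + i by ring]
    refine h1.trans ?_
    simpa using h2

lemma mass_loop (v : ℕ+) (m n : ℕ) :
    (((v : ℕ) + 1 : ℕ) : ENNReal) ^ m * mass tri_pos μ (n + m) v ≤ mass tri_pos μ n v := by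
  induction m with
  | zero => simp
  | succ m ih =>
    refine le_trans ?_ ih
    have := mass_ge hμ (n + m) v v
    rw [tri_diag] at this
    rw [pow_succ, mul_assoc]
    exact mul_le_mul_right this _

lemma mass_growth (w : ℕ+) (d m : ℕ) :
    ((d : ℕ) : ENNReal) ^ m * mass tri_pos μ (2 * d + m) w ≤ mass tri_pos μ 0 w := by
  have h1 := mass_up hμ w d 0
  have h2 := mass_loop hμ (ver w d) m (0 + d)
  have h3 := mass_down hμ w d (0 + d + m)
  calc ((d : ℕ) : ENNReal) ^ m * mass tri_pos μ (2 * d + m) w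
      = ((d : ℕ) : ENNReal) ^ m * mass tri_pos μ (0 + d + m + d) w := by congr 2; ring
    _ ≤ ((((ver w d : ℕ+) : ℕ) + 1 : ℕ) : ENNReal) ^ m * mass tri_pos μ (0 + d + m) (ver w d) := by
        apply mul_le_mul' _ h3
        apply pow_le_pow_left' _ m
        have : d ≤ ((ver w d : ℕ+) : ℕ) + 1 := by simp [ver]; omega
        exact_mod_cast this
    _ ≤ mass tri_pos μ (0 + d) (ver w d) := h2
    _ ≤ mass tri_pos μ 0 w := h1

end

/-- **Question 2, negative answer in strong form**: the stationary generalized Bratteli diagram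
whose incidence matrix is `triMatrix` carries no tail-invariant measure that is finite on all
cylinder sets; in particular no finite one, and no probability measure positive on cylinders. -/
theorem result : ¬ ∃ μ : Measure (PathSpace triMatrix),
    TailInvariant μ ∧ ∀ (n : ℕ) (e : FinPath triMatrix n), μ (cyl e) < ⊤ := by
  rintro ⟨μ, hμ, hfin⟩
  set a : ℕ → ℕ+ → ENNReal := fun n w => mass tri_pos μ n w with ha
  have hfin' : ∀ k v, a k v ≠ ⊤ := fun k v => (hfin k _).ne
  -- a vertex with positive mass at levels 1 and 2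
  obtain ⟨w, hw1⟩ : ∃ w, a 1 w ≠ 0 := by
    obtain ⟨f, hf⟩ := exists_pos_single μ hμ.1
    by_contra hcon
    push Not at hcon
    apply hf
    rw [measure_cyl_eq_mass tri_pos hμ, mass_step tri_pos hμ 0, op_apply]
    simp only [ENNReal.tsum_eq_zero, zero_add]
    intro v
    have := hcon v
    simp only [ha] at this
    rw [this, mul_zero]
  have hw0 : a 0 w ≠ 0 := by
    have h := mass_ge hμ 0 w w
    intro h0
    simp only [ha] at h0 hw1
    rw [h0, tri_diag, zero_add] at h
    have := le_antisymm h zero_le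
    rw [mul_eq_zero] at this
    rcases this with h | h
    · exact absurd h (Nat.cast_ne_zero.2 (Nat.succ_ne_zero _))
    · exact hw1 h
  set b : ℕ → ℝ := fun n => (a n w).toReal with hb
  have hb0 : 0 < b 0 := ENNReal.toReal_pos hw0 (hfin' _ _)
  have hb1 : 0 < b 1 := ENNReal.toReal_pos hw1 (hfin' _ _)
  set r := b 1 / b 0 with hr
  have hrpos : 0 < r := div_pos hb1 hb0
  have hlog : ∀ n, b (n + 1) ^ 2 ≤ b n * b (n + 2) := fun n =>
    mass_logconv tri_pos hμ hfin n w
  have hstep : ∀ n, 0 < b n ∧ r * b n ≤ b (n + 1) := by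
    intro n
    induction n with
    | zero =>
      refine ⟨hb0, ?_⟩
      rw [hr, div_mul_cancel₀ _ hb0.ne']
    | succ n ih =>
      obtain ⟨h1, h2⟩ := ih
      have h3 : 0 < b (n + 1) := lt_of_lt_of_le (mul_pos hrpos h1) h2
      refine ⟨h3, ?_⟩
      have h4 := hlog n
      have h5 : r * b (n + 1) * b n ≤ b n * b (n + 2) := by nlinarith
      have h6 : b n * (r * b (n + 1)) ≤ b n * b (n + 2) := by linarith
      exact le_of_mul_le_mul_left h6 h1
  have hexp : ∀ n, b 0 * r ^ n ≤ b n := by
    intro n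
    induction n with
    | zero => simp
    | succ n ih =>
      have := (hstep n).2
      rw [pow_succ]
      nlinarith
  -- choose d with d * r ≥ 2
  obtain ⟨d, hd⟩ := exists_nat_gt (2 / r)
  have hd' : 2 < d * r := by rwa [div_lt_iff₀ hrpos] at hd
  have hgrow : ∀ m : ℕ, (d : ℝ) ^ m * b (2 * d + m) ≤ b 0 := by
    intro m
    have h := mass_growth hμ w d m
    have h2 := ENNReal.toReal_mono (hfin' 0 w) h
    rw [ENNReal.toReal_mul, ENNReal.toReal_pow, ENNReal.toReal_natCast] at h2
    exact h2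
  have hfinal : ∀ m : ℕ, (2 : ℝ) ^ m * r ^ (2 * d) ≤ 1 := by
    intro m
    have h1 := hexp (2 * d + m)
    have h2 := hgrow m
    have h3 : (d : ℝ) ^ m * (b 0 * r ^ (2 * d + m)) ≤ b 0 :=
      (mul_le_mul_of_nonneg_left h1 (by positivity)).trans h2
    have h4 : b 0 * (((d : ℝ) * r) ^ m * r ^ (2 * d)) ≤ b 0 * 1 := by
      rw [mul_one, mul_pow]
      calc b 0 * ((d : ℝ) ^ m * r ^ m * r ^ (2 * d)) = (d : ℝ) ^ m * (b 0 * r ^ (2 * d + m)) := by
            rw [pow_add]; ring
        _ ≤ b 0 := h3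
    have h5 := le_of_mul_le_mul_left h4 hb0
    refine le_trans ?_ h5
    exact mul_le_mul_of_nonneg_right (pow_le_pow_left₀ (by norm_num) hd'.le m) (by positivity)
  have hpos : 0 < r ^ (2 * d) := by positivity
  obtain ⟨m, hm⟩ := pow_unbounded_of_one_lt (1 / r ^ (2 * d)) (by norm_num : (1 : ℝ) < 2)
  have := hfinal m
  rw [div_lt_iff₀ hpos] at hm
  linarith

end Pool.Agent.Results.MP_17dcfb_an.TridiagonalNone
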